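import Mathlib

namespace Pool.Agent.H.MP_a337a7

open Finset

def GX (W : Set (ℕ → ℝ)) (p : ℕ → ℝ) (a : ℝ) : Prop :=
  ∀ w ∈ W, ∀ s : Finset ℕ, ∑ i ∈ s, w i * p i ≤ a

def GD (W : Set (ℕ → ℝ)) (g : ℕ → ℝ) (b : ℝ) : Prop :=
  ∀ w ∈ W, ∀ (s : Finset ℕ) (σ : ℕ → ℕ), Set.InjOn σ s → ∑ i ∈ s, w i * g (σ i) ≤ b

def S (W : Set (ℕ → ℝ)) (η : ℝ) (r : ℕ → ℝ) : Set ℝ :=
  {c | ∃ p g a b, 0 ≤ p ∧ 0 ≤ g ∧ r ≤ p + g ∧ GX W p a ∧ GD W g b ∧ 0 ≤ a ∧ 0 ≤ b ∧ a + η * b ≤ c}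

variable {W : Set (ℕ → ℝ)} {η : ℝ}

theorem S_add {r r' : ℕ → ℝ} {c c' : ℝ} (h : c ∈ S W η r) (h' : c' ∈ S W η r') :
    c + c' ∈ S W η (r + r') := by
  obtain ⟨p, g, a, b, h1, h2, h3, h4, h5, h6, h7, h8⟩ := h
  obtain ⟨p', g', a', b', k1, k2, k3, k4, k5, k6, k7, k8⟩ := h'
  refine ⟨p + p', g + g', a + a', b + b', add_nonneg h1 k1, add_nonneg h2 k2,
    (add_le_add h3 k3).trans_eq (add_add_add_comm ..), fun w hw s => ?_, fun w hw s σ hσ => ?_,
    add_nonneg h6 k6, add_nonneg h7 k7, by linarith⟩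
  · simpa [mul_add, sum_add_distrib] using add_le_add (h4 w hw s) (k4 w hw s)
  · simpa [mul_add, sum_add_distrib] using add_le_add (h5 w hw s σ hσ) (k5 w hw s σ hσ)

theorem S_smul {r : ℕ → ℝ} {c t : ℝ} (ht : 0 ≤ t) (h : c ∈ S W η r) : t * c ∈ S W η (t • r) := by
  obtain ⟨p, g, a, b, h1, h2, h3, h4, h5, h6, h7, h8⟩ := h
  refine ⟨t • p, t • g, t * a, t * b, smul_nonneg ht h1, smul_nonneg ht h2,
    (smul_le_smul_of_nonneg_left h3 ht).trans_eq (smul_add ..), fun w hw s => ?_,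
    fun w hw s σ hσ => ?_, mul_nonneg ht h6, mul_nonneg ht h7,
    by nlinarith [mul_le_mul_of_nonneg_left h8 ht]⟩
  · simpa [mul_sum, mul_left_comm] using mul_le_mul_of_nonneg_left (h4 w hw s) ht
  · simpa [mul_sum, mul_left_comm] using mul_le_mul_of_nonneg_left (h5 w hw s σ hσ) ht

theorem S_mono {r r' : ℕ → ℝ} {c : ℝ} (hr : r' ≤ r) (h : c ∈ S W η r) : c ∈ S W η r' := by
  obtain ⟨p, g, a, b, h1, h2, h3, h4⟩ := h
  exact ⟨p, g, a, b, h1, h2, hr.trans h3, h4⟩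

theorem step {Δ ε : ℝ} (hΔ : 0 < Δ) (hε : 0 < ε) (hW : ∀ w ∈ W, 0 ≤ w)
    (dem : ∀ (t a : ℝ) (B E : Finset ℕ), 0 ≤ t → (∀ w ∈ W, t * ∑ i ∈ B, w i ≤ a) →
      E.card ≤ B.card → ∀ w ∈ W, t * ∑ i ∈ E, w i ≤ Δ * a)
    {r r' : ℕ → ℝ} {t c : ℝ} {A B : Finset ℕ} (ht : 0 ≤ t) (hAB : B.card ≤ A.card)
    (h1 : ∀ i ∈ A, i ∉ B → t ≤ r i) (h2 : ∀ i ∈ A, r' i ≤ 0) (h3 : ∀ i ∈ B, i ∉ A → r' i ≤ t)
    (h4 : ∀ i, i ∉ A → i ∉ B → r' i ≤ r i) (h : c ∈ S W (ε ^ 2 / (ε ^ 2 + Δ ^ 2)) r) :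
    (1 + ε) * c ∈ S W (ε ^ 2 / (ε ^ 2 + Δ ^ 2)) r' := by
  obtain ⟨p, g, a, b, k1, k2, k3, k4, k5, k6, k7, k8⟩ := h
  have hc : (B \ A).card ≤ (A \ B).card := by
    have := card_sdiff_add_card_inter B A
    have := card_sdiff_add_card_inter A B
    rw [inter_comm] at this
    omega
  obtain ⟨π, hπ⟩ := Function.Embedding.exists_of_card_le_finset (α := (B \ A : Finset ℕ))
    (s := A \ B) (by simpa using hc)
  obtain ⟨τ, τ1, τ0, τ3⟩ : ∃ τ : ℕ → ℕ, (∀ i ∈ B \ A, τ i ∈ A \ B) ∧ (∀ i, i ∉ B \ A → τ i = i) ∧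
      ∀ i ∈ B \ A, ∀ j ∈ B \ A, τ i = τ j → i = j :=
    ⟨fun i => if h : i ∈ B \ A then π ⟨i, h⟩ else i, fun i hi => by
      simp only [dif_pos hi]
      exact hπ ⟨_, rfl⟩, fun i hi => dif_neg hi, fun i hi j hj e => by
      simp only [dif_pos hi, dif_pos hj] at e
      exact congrArg Subtype.val (π.injective e)⟩
  have τ2 : ∀ i, i ∉ A → ∀ j, j ∉ A → τ i = τ j → i = j := fun i hi j hj e => by
    by_cases u : i ∈ B \ A <;> by_cases v : j ∈ B \ A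
    · exact τ3 i u j v e
    · exact absurd (by rw [← τ0 j v, ← e]; exact (mem_sdiff.1 (τ1 i u)).1) hj
    · exact absurd (by rw [← τ0 i u, e]; exact (mem_sdiff.1 (τ1 j v)).1) hi
    · rwa [τ0 i u, τ0 j v] at e
  have fl : ∀ (t a : ℝ) (q : ℕ → ℝ) (B E : Finset ℕ), 0 ≤ t → GX W q a → (∀ i ∈ B, t ≤ q i) →
      E.card ≤ B.card → GD W (fun i => if i ∈ E then t else 0) (Δ * a) :=
    fun t a q B E ht hq h hE w hw s σ hσ => by
      refine le_trans (le_of_eq ?_) (dem t a B (s.filter fun i => σ i ∈ E) ht (fun w hw => ?_)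
        ((card_le_card_of_injOn σ (fun i hi => (mem_filter.1 hi).2)
          (hσ.mono fun i hi => (mem_filter.1 hi).1)).trans hE) w hw)
      · simp [sum_filter, mul_sum, mul_comm]
      · refine le_trans ?_ (hq w hw B)
        rw [mul_sum]
        exact sum_le_sum fun i hi => by
          rw [mul_comm]
          exact mul_le_mul_of_nonneg_left (h i hi) (hW w hw i)
  set δ := ε / Δ
  have δ0 : 0 < δ := by positivity
  let E := (B \ A).filter fun i => δ * t ≤ p (τ i)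
  have a1 := fl t (a + b) (p + g) (A \ B) (B \ A) ht (fun w hw s => by
    simpa [mul_add, sum_add_distrib] using add_le_add (k4 w hw s) (k5 w hw s id (Set.injOn_id _)))
    (fun i hi => (h1 i (mem_sdiff.1 hi).1 (mem_sdiff.1 hi).2).trans (k3 i)) hc
  have a2 := fl (δ * t) a p (E.image τ) E (by positivity) k4 (fun i hi => by
    obtain ⟨j, hj, rfl⟩ := mem_image.1 hi
    exact (mem_filter.1 hj).2) (card_image_of_injOn fun i hi j hj =>
      τ2 i (mem_sdiff.1 (mem_filter.1 hi).1).2 j (mem_sdiff.1 (mem_filter.1 hj).1).2).ge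
  refine ⟨p, fun i => (if i ∈ A then 0 else g (τ i)) + (δ * (if i ∈ B \ A then t else 0) +
    δ⁻¹ * (if i ∈ E then δ * t else 0)), a, b + (δ * (Δ * (a + b)) + δ⁻¹ * (Δ * a)), k1,
    fun i => ?_, fun i => ?_, k4, fun w hw s σ hσ => ?_, k6, by positivity, ?_⟩
  · have : 0 ≤ g (τ i) := k2 _
    show (0 : ℝ) ≤ _
    positivity
  · have u1 : 0 ≤ p i := k1 i
    have u2 : 0 ≤ δ * t := by positivity
    simp only [Pi.add_apply]
    by_cases hA : i ∈ A
    · have : i ∉ E := fun k => (mem_sdiff.1 (mem_filter.1 k).1).2 hA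
      simp only [hA, this, mem_sdiff, not_true, and_false, if_true, if_false]
      linarith [h2 i hA]
    by_cases hB : i ∈ B
    · have v := mem_sdiff.2 ⟨hB, hA⟩
      have v1 := (h1 _ (mem_sdiff.1 (τ1 i v)).1 (mem_sdiff.1 (τ1 i v)).2).trans (k3 _)
      have v2 : 0 ≤ g (τ i) := k2 _
      have v3 := h3 i hB hA
      rw [if_neg hA, if_pos v]
      rw [Pi.add_apply] at v1
      split_ifs with k
      · rw [inv_mul_cancel_left₀ δ0.ne']
        linarith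
      · have := not_le.1 fun k' => k (mem_filter.2 ⟨v, k'⟩)
        linarith
    · have v : i ∉ B \ A := fun k => hB (mem_sdiff.1 k).1
      have : i ∉ E := fun k => v (mem_filter.1 k).1
      simpa [hA, v, this, τ0 i v] using (h4 i hA hB).trans (k3 i)
  · have b1 := k5 w hw (s.filter fun i => σ i ∉ A) (τ ∘ σ) fun i hi j hj e =>
      hσ (mem_filter.1 hi).1 (mem_filter.1 hj).1 (τ2 _ (mem_filter.1 hi).2 _ (mem_filter.1 hj).2 e)
    have b2 := mul_le_mul_of_nonneg_left (a1 w hw s σ hσ) δ0.le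
    have b3 := mul_le_mul_of_nonneg_left (a2 w hw s σ hσ) (inv_pos.2 δ0).le
    rw [mul_sum] at b2 b3
    rw [sum_filter] at b1
    refine le_trans (le_of_eq ?_) (add_le_add b1 (add_le_add b2 b3))
    rw [← sum_add_distrib, ← sum_add_distrib]
    refine sum_congr rfl fun i _ => ?_
    by_cases k : σ i ∈ A <;> simp only [k, if_true, if_false, not_true, not_false_iff,
      Function.comp] <;> ring
  · refine le_trans (le_of_eq ?_) (mul_le_mul_of_nonneg_left k8 (by positivity))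
    simp only [δ]
    field_simp
    ring

variable {𝕜 : Type} [RCLike 𝕜] {X : Type} [NormedAddCommGroup X] [NormedSpace 𝕜 X]

theorem two (s : Finset ℕ) (g : ℕ → ℝ) {M : ℝ} (h : ∀ A ⊆ s, |∑ i ∈ A, g i| ≤ M) :
    ∑ i ∈ s, |g i| ≤ 2 * M := by
  have a := (abs_le.1 (h _ (filter_subset (fun i => 0 ≤ g i) s))).2
  have b := (abs_le.1 (h _ (filter_subset (fun i => ¬ 0 ≤ g i) s))).1
  rw [← sum_filter_add_sum_filter_not s fun i => 0 ≤ g i,
    sum_congr rfl fun i hi => abs_of_nonneg (mem_filter.1 hi).2,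
    sum_congr rfl fun i hi => abs_of_neg (not_le.1 (mem_filter.1 hi).2), sum_neg_distrib]
  linarith

theorem four (s : Finset ℕ) (g : ℕ → 𝕜) {M : ℝ} (h : ∀ A ⊆ s, ‖∑ i ∈ A, g i‖ ≤ M) :
    ∑ i ∈ s, ‖g i‖ ≤ 4 * M := by
  have a := two s (fun i => RCLike.re (g i)) fun A hA => by
    rw [← map_sum]
    exact (RCLike.abs_re_le_norm _).trans (h A hA)
  have b := two s (fun i => RCLike.im (g i)) fun A hA => by
    rw [← map_sum]
    exact (RCLike.abs_im_le_norm _).trans (h A hA)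
  refine (sum_le_sum (g := fun i => |RCLike.re (g i)| + |RCLike.im (g i)|) fun i _ => ?_).trans
    (by rw [sum_add_distrib]; linarith)
  refine (pow_le_pow_iff_left₀ (norm_nonneg _) (by positivity) two_ne_zero).1 ?_
  rw [RCLike.norm_sq_eq_def, add_sq, sq_abs, sq_abs]
  nlinarith [mul_nonneg (abs_nonneg (RCLike.re (g i))) (abs_nonneg (RCLike.im (g i)))]

open Filter Topology in
theorem main (e : ℕ → X) (f : ℕ → X →L[𝕜] 𝕜) (h1 : ∀ i j : ℕ, f i (e j) = if i = j then 1 else 0)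
    (h2 : ∀ x : X, Tendsto (fun N : ℕ => ∑ n ∈ Finset.range N, f n x • e n) atTop (𝓝 x))
    {C : ℝ} (hC : 0 < C) (h3 : ∀ (x : X) (A B : Finset ℕ) (a : ℕ → 𝕜),
      (∀ i ∈ A, ∀ j ∉ A, ‖f j x‖ ≤ ‖f i x‖) → B.card ≤ A.card →
      ‖x - ∑ i ∈ A, f i x • e i‖ ≤ C * ‖x - ∑ i ∈ B, a i • e i‖) {ε : ℝ} (hε : 0 < ε) :
    ∃ N : Seminorm 𝕜 X,
      (∃ c : ℝ, 0 < c ∧ ∃ D : ℝ, ∀ x : X, c * ‖x‖ ≤ N x ∧ N x ≤ D * ‖x‖) ∧
      ∀ (x : X) (A B : Finset ℕ) (a : ℕ → 𝕜),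
        (∀ i ∈ A, ∀ j ∉ A, ‖f j x‖ ≤ ‖f i x‖) → B.card ≤ A.card →
        N (x - ∑ i ∈ A, f i x • e i) ≤ (1 + ε) * N (x - ∑ i ∈ B, a i • e i) := by
  have fs : ∀ (A : Finset ℕ) (a : ℕ → 𝕜) k, f k (∑ i ∈ A, a i • e i) = if k ∈ A then a k else 0 :=
    fun A a k => by simp [h1]
  have sup : ∀ (s A : Finset ℕ) (b : ℕ → 𝕜), A ⊆ s → ‖∑ i ∈ A, b i • e i‖ ≤ C * ‖∑ i ∈ s, b i • e i‖ :=
    fun s A b hA => by
    let M : 𝕜 := ((∑ i ∈ s, ‖b i‖ : ℝ) : 𝕜)
    have k : ∀ i ∈ s \ A, f i (∑ i ∈ A, b i • e i + ∑ i ∈ s \ A, M • e i) = M := fun i hi => by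
      rw [map_add, fs, fs _ fun _ => M, if_neg (Finset.mem_sdiff.1 hi).2, if_pos hi, zero_add]
    have := h3 (∑ i ∈ A, b i • e i + ∑ i ∈ s \ A, M • e i) (s \ A) (s \ A) (fun i => M - b i)
      (fun i hi j hj => by
        rw [k i hi, map_add, fs, fs _ fun _ => M, if_neg hj, add_zero, RCLike.norm_ofReal,
          abs_of_nonneg (by positivity)]
        split_ifs with h
        · exact single_le_sum (f := fun i => ‖b i‖) (fun _ _ => norm_nonneg _) (hA h)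
        · rw [norm_zero]
          positivity) le_rfl
    rw [sum_congr rfl fun i hi => congrArg (· • e i) (k i hi), add_sub_cancel_right] at this
    simp only [sub_smul, sum_sub_distrib] at this
    rw [← sum_sdiff hA]
    convert this using 3
    abel
  let W : Set (ℕ → ℝ) := {w | ∃ φ : X →L[𝕜] 𝕜, ‖φ‖ ≤ 1 ∧ w = fun i => ‖φ (e i)‖}
  have hW : ∀ w ∈ W, 0 ≤ w := by
    rintro _ ⟨φ, -, rfl⟩ i
    exact norm_nonneg _
  have af : ∀ w ∈ W, ∀ (s : Finset ℕ) (b : ℕ → 𝕜),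
      ∑ i ∈ s, w i * ‖b i‖ ≤ 4 * (C * ‖∑ i ∈ s, b i • e i‖) := by
    rintro _ ⟨φ, hφ, rfl⟩ s b
    refine le_trans (le_of_eq ?_) (four s (fun i => φ (b i • e i)) fun A hA => ?_)
    · simp [mul_comm]
    · rw [← map_sum]
      exact (φ.le_of_opNorm_le hφ _).trans ((one_mul _).trans_le (sup s A b hA))
  have bf : ∀ (s : Finset ℕ) (b : ℕ → 𝕜) (a : ℝ), (∀ w ∈ W, ∑ i ∈ s, w i * ‖b i‖ ≤ a) →
      ‖∑ i ∈ s, b i • e i‖ ≤ a := fun s b a h => by
    obtain ⟨φ, hφ, k⟩ := exists_dual_vector'' 𝕜 (∑ i ∈ s, b i • e i)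
    have := congrArg norm k
    rw [RCLike.norm_ofReal, abs_norm] at this
    rw [← this, map_sum]
    exact (norm_sum_le _ _).trans (le_trans (le_of_eq (by simp [mul_comm])) (h _ ⟨φ, hφ, rfl⟩))
  have ha : ∀ x, GX W (fun i => ‖f i x‖) (4 * (C * ‖x‖)) := fun x w hw s => by
    refine ge_of_tendsto (((h2 x).norm.const_mul C).const_mul 4) ?_
    filter_upwards [eventually_gt_atTop (s.sup id)] with N hN
    exact (sum_le_sum_of_subset_of_nonneg (fun i hi => mem_range.2 ((le_sup (f := id) hi).trans_lt hN))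
      fun i _ _ => mul_nonneg (hW w hw i) (norm_nonneg _)).trans (af w hw _ _)
  have hb : ∀ x a, GX W (fun i => ‖f i x‖) a → ‖x‖ ≤ a := fun x a h =>
    le_of_tendsto' (h2 x).norm fun N => bf _ _ _ fun w hw => h w hw _
  have dem : ∀ (t a : ℝ) (B E : Finset ℕ), 0 ≤ t → (∀ w ∈ W, t * ∑ i ∈ B, w i ≤ a) →
      E.card ≤ B.card → ∀ w ∈ W, t * ∑ i ∈ E, w i ≤ 4 * C ^ 3 * a := fun t a B E ht h hc w hw => by
    have n : ‖(t : 𝕜)‖ = t := by rw [RCLike.norm_ofReal, abs_of_nonneg ht]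
    have a1 := af w hw E fun _ => t
    have a2 := bf B (fun _ => t) a fun w hw => by rw [n, ← sum_mul, mul_comm]; exact h w hw
    obtain ⟨G, hG, hG'⟩ := exists_subset_card_eq (s := B \ E) (n := (E \ B).card) (by
      have := card_sdiff_add_card_inter B E
      have := card_sdiff_add_card_inter E B
      rw [inter_comm] at this
      omega)
    have hG2 : G ⊆ E ∪ B := hG.trans (sdiff_subset.trans subset_union_right)
    have a3 := h3 (∑ i ∈ E ∪ B, (t : 𝕜) • e i) G (E \ B) (fun _ => t) (fun i hi j _ => by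
      rw [fs _ fun _ => (t : 𝕜), fs _ fun _ => (t : 𝕜), if_pos (hG2 hi)]
      split_ifs <;> simp) hG'.ge
    rw [sum_congr rfl fun i hi => congrArg (· • e i)
      ((fs _ (fun _ => (t : 𝕜)) i).trans (if_pos (hG2 hi))), ← sum_sdiff_eq_sub hG2,
      ← sum_sdiff_eq_sub (sdiff_subset.trans subset_union_left),
      show (E ∪ B) \ (E \ B) = B by ext; simp; tauto] at a3
    have a4 := sup ((E ∪ B) \ G) E (fun _ => t) fun i hi => Finset.mem_sdiff.2
      ⟨mem_union_left _ hi, fun k => (Finset.mem_sdiff.1 (hG k)).2 hi⟩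
    have a5 := a4.trans (mul_le_mul_of_nonneg_left (a3.trans
      (mul_le_mul_of_nonneg_left a2 hC.le)) hC.le)
    rw [n, ← sum_mul] at a1
    nlinarith [mul_le_mul_of_nonneg_left a5 hC.le]
  set η := ε ^ 2 / (ε ^ 2 + (4 * C ^ 3) ^ 2)
  have η0 : 0 < η := by positivity
  have η1 : η ≤ 1 := div_le_one_of_le₀ (by nlinarith [sq_nonneg (4 * C ^ 3)]) (by positivity)
  have up : ∀ x, 4 * (C * ‖x‖) ∈ S W η fun i => ‖f i x‖ := fun x =>
    ⟨_, 0, _, 0, fun _ => norm_nonneg _, le_rfl, (add_zero _).ge, ha x, fun w _ s σ _ => by simp,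
      by positivity, le_rfl, by simp⟩
  have lo : ∀ x, ∀ c ∈ S W η fun i => ‖f i x‖, η * ‖x‖ ≤ c := by
    rintro x c ⟨p, g, a, b, k1, k2, k3, k4, k5, k6, k7, k8⟩
    have := hb x (a + b) fun w hw s => (sum_le_sum fun i _ =>
      mul_le_mul_of_nonneg_left (k3 i) (hW w hw i)).trans (by
        simpa [mul_add, sum_add_distrib] using
          add_le_add (k4 w hw s) (k5 w hw s id (Set.injOn_id _)))
    nlinarith [mul_le_mul_of_nonneg_left this η0.le]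
  let N : X → ℝ := fun x => sInf (S W η fun i => ‖f i x‖)
  have n1 : ∀ x, ∀ c ∈ S W η fun i => ‖f i x‖, N x ≤ c := fun x c hc => csInf_le ⟨_, lo x⟩ hc
  have n2 : ∀ x d, (∀ c ∈ S W η fun i => ‖f i x‖, d ≤ c) → d ≤ N x := fun x d h =>
    le_csInf ⟨_, up x⟩ h
  have n3 : ∀ x d k, 0 ≤ k → (∀ c ∈ S W η fun i => ‖f i x‖, d ≤ k * c) → d ≤ k * N x :=
    fun x d k hk h => by
      rcases hk.eq_or_lt with rfl | hk
      · simpa using h _ (up x)
      · exact (div_le_iff₀' hk).1 (n2 x _ fun c hc => (div_le_iff₀' hk).2 (h c hc))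
  refine ⟨Seminorm.ofSMulLE N (le_antisymm (by simpa using n1 0 _ (up 0))
    (n2 0 0 fun c hc => by simpa using lo 0 c hc)) (fun x y => ?_) fun r x => ?_,
    ⟨η, η0, 4 * C, fun x => ⟨n2 x _ (lo x), (n1 x _ (up x)).trans_eq (mul_assoc ..).symm⟩⟩,
    fun x A B a hA hB => n3 _ _ _ (by positivity) fun c hc => n1 _ _ ?_⟩
  · refine sub_le_iff_le_add.1 (n2 x _ fun c hc => sub_le_comm.1 (n2 y _ fun c' hc' =>
      sub_le_iff_le_add'.2 (n1 _ _ (S_mono (fun i => ?_) (S_add hc hc')))))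
    simpa using norm_add_le _ _
  · exact n3 x _ _ (norm_nonneg r) fun c hc => n1 _ _ (S_mono (fun i => by simp)
      (S_smul (norm_nonneg r) hc))
  · rcases A.eq_empty_or_nonempty with rfl | hne
    · obtain rfl := card_eq_zero.1 (Nat.le_zero.1 hB)
      exact step (A := ∅) (B := ∅) (t := 0) (by positivity) hε hW dem le_rfl le_rfl (by simp)
        (by simp) (by simp) (by simp) hc
    obtain ⟨n₀, h₀, h₁⟩ := A.exists_min_image (fun n => ‖f n x‖) hne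
    refine step (A := A) (B := B) (t := ‖f n₀ x‖) (by positivity) hε hW dem (norm_nonneg _) hB
      (fun i hi k => ?_) (fun i hi => ?_) (fun i _ k => ?_) (fun i k k' => ?_) hc
    · simpa only [map_sub, fs, if_neg k, sub_zero] using h₁ i hi
    · simp only [map_sub, fs A fun i => f i x, if_pos hi, sub_self, norm_zero, le_rfl]
    · simpa only [map_sub, fs A fun i => f i x, if_neg k, sub_zero] using hA n₀ h₀ i k
    · simp only [map_sub, fs A fun i => f i x, fs B, if_neg k, if_neg k', le_rfl]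

end Pool.Agent.H.MP_a337a7
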